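import Pool.Agent.Q186.RS.Data

/-!
# A large learning rate does not force the spectral radius above one

There are a row-stochastic matrix `A` of size 24 and a diagonal matrix `E` with nonnegative
entries, one of them larger than `3.05`, such that all the eigenvalues of `A - E` have modulus less
than `0.99`.

The matrix was found by optimisation: the characteristic polynomial of `A - E` is, up to `10^(-37)`,
`(X + 0.96)^20 (X - m₁) ⋯ (X - m₄)`.  The certificate: with `P = (M + 0.96)^20 (M - m₁) ⋯ (M - m₄)`,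
computed exactly, the row sums of `|P|` are smaller than the product of the numbers
`0.99 - |centre|`, so that an eigenvalue of `M = A - E` cannot have modulus `0.99` or more.
-/

namespace Pool.Agent.Results.MP_7b644b_an.LargeRate

open Pool.Agent.Q186.RS

lemma check_ok : check 24 (subDiag 0 rowsA diagE) radius centres = true := by
  decide +kernel

lemma stoch_ok : stochOk 24 (unit : ℤ) rowsA = true := by
  decide +kernel

lemma diagE_length : diagE.length = 24 := by decide +kernel

lemma diagE_nonneg : ∀ e ∈ diagE, 0 ≤ e := by decide +kernel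

lemma diagE_large : 305 * (unit : ℤ) ≤ 100 * nth diagE 0 := by decide +kernel

lemma nth_nonneg (l : List ℤ) (h : ∀ e ∈ l, 0 ≤ e) (i : ℕ) : 0 ≤ nth l i := by
  induction l generalizing i with
  | nil => simp [nth]
  | cons a l ih => cases i with
    | zero => exact h a List.mem_cons_self
    | succ i => exact ih (fun e he => h e (List.mem_cons_of_mem _ he)) i

lemma unit_pos : (0 : ℝ) < (unit : ℝ) := by
  have : 0 < unit := by decide +kernel
  exact_mod_cast this

/-- the stochastic matrix -/
noncomputable def matA : Matrix (Fin 24) (Fin 24) ℝ :=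
  fun i j => ((toMat 24 rowsA i j : ℤ) : ℝ) / (unit : ℝ)

/-- the diagonal entries -/
noncomputable def vecE : Fin 24 → ℝ := fun i => ((toVec 24 diagE i : ℤ) : ℝ) / (unit : ℝ)

lemma eig_bound (z : ℂ) (x : Fin 24 → ℂ) (hx0 : x ≠ 0)
    (hx : ((matA - Matrix.diagonal vecE).map (algebraMap ℝ ℂ)).mulVec x = z • x) :
    ‖z‖ < 99 / 100 := by
  have hA := (stochOk_spec 24 unit rowsA stoch_ok).1
  have hmat := toMat_subDiag 24 rowsA diagE hA diagE_length
  have hu : ((unit : ℕ) : ℂ) ≠ 0 := by
    have := unit_pos.ne'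
    exact_mod_cast this
  have h1 : ((toMat 24 (subDiag 0 rowsA diagE)).map (Int.cast : ℤ → ℂ)) =
      ((unit : ℕ) : ℂ) • ((matA - Matrix.diagonal vecE).map (algebraMap ℝ ℂ)) := by
    rw [hmat]
    ext i j
    have hAij : matA i j = ((toMat 24 rowsA i j : ℤ) : ℝ) / (unit : ℝ) := rfl
    simp only [Matrix.map_apply, Matrix.sub_apply, Matrix.smul_apply, hAij, smul_eq_mul]
    generalize toMat 24 rowsA i j = a
    by_cases hij : i = j
    · subst hij
      have hEi : vecE i = ((toVec 24 diagE i : ℤ) : ℝ) / (unit : ℝ) := rfl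
      simp only [Matrix.diagonal_apply_eq, hEi]
      generalize toVec 24 diagE i = b
      rw [Complex.coe_algebraMap]
      push_cast
      field_simp
    · simp only [Matrix.diagonal_apply_ne _ hij]
      rw [Complex.coe_algebraMap]
      push_cast
      field_simp
      ring
  have h2 : ((toMat 24 (subDiag 0 rowsA diagE)).map (Int.cast : ℤ → ℂ)).mulVec x =
      (((unit : ℕ) : ℂ) * z) • x := by
    rw [h1, Matrix.smul_mulVec, hx, smul_smul]
  have h3 := check_spec 24 _ radius centres check_ok x hx0 _ h2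
  rw [norm_mul, Complex.norm_natCast] at h3
  have h4 : (radius : ℝ) ≤ 99 / 100 * (unit : ℝ) := by
    have : 100 * radius ≤ 99 * unit := by decide +kernel
    have h5 : (100 : ℝ) * (radius : ℝ) ≤ 99 * (unit : ℝ) := by exact_mod_cast this
    linarith
  have h6 := unit_pos
  by_contra hcon
  push Not at hcon
  have h7 := mul_le_mul_of_nonneg_left hcon h6.le
  linarith

/-- **Disproof of Q1.**  There are a row-stochastic matrix `A` of size 24 and a diagonal matrix
with nonnegative diagonal `E`, one of whose entries is at least `3.05`, such that every complex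
eigenvalue of `A - E` has modulus less than `0.99`; in particular its spectral radius is less than
one. -/
theorem result : ∃ (A : Matrix (Fin 24) (Fin 24) ℝ) (E : Fin 24 → ℝ),
    (∀ i j, 0 ≤ A i j) ∧ (∀ i, ∑ j, A i j = 1) ∧ (∀ i, 0 ≤ E i) ∧ (∃ i, 305 / 100 ≤ E i) ∧
    (∀ z ∈ spectrum ℂ ((A - Matrix.diagonal E).map (algebraMap ℝ ℂ)), ‖z‖ < 99 / 100) ∧
    spectralRadius ℂ ((A - Matrix.diagonal E).map (algebraMap ℝ ℂ)) < 1 := by
  have hu := unit_pos
  obtain ⟨h1, h2, h3⟩ := stochOk_spec 24 unit rowsA stoch_ok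
  have hspec : ∀ z ∈ spectrum ℂ ((matA - Matrix.diagonal vecE).map (algebraMap ℝ ℂ)),
      ‖z‖ < 99 / 100 := by
    intro z hz
    rw [← Matrix.spectrum_toLin', ← Module.End.hasEigenvalue_iff_mem_spectrum] at hz
    obtain ⟨x, hx⟩ := hz.exists_hasEigenvector
    exact eig_bound z x hx.2 (by simpa [Matrix.toLin'_apply] using hx.apply_eq_smul)
  refine ⟨matA, vecE, fun i j => ?_, fun i => ?_, fun i => ?_, ⟨0, ?_⟩, hspec, ?_⟩
  · have h4 : (0 : ℝ) ≤ ((toMat 24 rowsA i j : ℤ) : ℝ) := by exact_mod_cast h2 i j
    exact div_nonneg h4 hu.le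
  · have h4 : ∑ j, ((toMat 24 rowsA i j : ℤ) : ℝ) = (unit : ℝ) := by
      have := h3 i
      have h5 : ((∑ j, toMat 24 rowsA i j : ℤ) : ℝ) = ((unit : ℤ) : ℝ) := by rw [this]
      push_cast at h5
      exact h5
    simp only [matA]
    rw [← Finset.sum_div, h4, div_self hu.ne']
  · have h4 : (0 : ℝ) ≤ ((toVec 24 diagE i : ℤ) : ℝ) := by
      exact_mod_cast nth_nonneg diagE diagE_nonneg i
    exact div_nonneg h4 hu.le
  · have h4 : (305 : ℝ) * (unit : ℝ) ≤ 100 * ((toVec 24 diagE 0 : ℤ) : ℝ) := by
      exact_mod_cast diagE_large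
    simp only [vecE]
    rw [le_div_iff₀ hu]
    linarith
  · have h4 : spectralRadius ℂ ((matA - Matrix.diagonal vecE).map (algebraMap ℝ ℂ)) ≤
        ((99 / 100 : NNReal) : ENNReal) := by
      refine iSup₂_le fun z hz => ?_
      have := hspec z hz
      have h5 : ‖z‖₊ ≤ (99 / 100 : NNReal) := by
        rw [← NNReal.coe_le_coe]
        push_cast
        exact this.le
      exact_mod_cast h5
    refine lt_of_le_of_lt h4 ?_
    have h6 : (99 / 100 : NNReal) < 1 := by
      rw [← NNReal.coe_lt_coe]
      push_cast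
      norm_num
    exact_mod_cast h6

end Pool.Agent.Results.MP_7b644b_an.LargeRate
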